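import Pool.Agent.L7h3.GL.Stm

set_option autoImplicit false

/-! Project GL, part RICH: a linked subset of full cardinality. -/

namespace Pool.Agent.L7h52.GL
open Cardinal Pool.Agent.L7h3.GL

variable {L : Type} [CompleteLattice L] {ρ : L → ℕ}

theorem eq_of_le {b x y : L} (hx : b ⋖ x) (hy : b ⋖ y) (h : x ≤ y) : x = y := by
  by_contra hne
  exact hy.2 hx.1 (lt_of_le_of_ne h hne)

theorem cov_sup (hρ : Rk ρ) {b : L} {T : Set L} (hT : Cv b T) {x y : L} (hx : x ∈ T) (hy : y ∈ T)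
    (hne : x ≠ y) : x ⋖ x ⊔ y :=
  hρ.sm b y x (hT y hy) (hT x hx).le fun h => hne (eq_of_le (hT y hy) (hT x hx) h).symm

theorem bel_cov (hρ : Rk ρ) {b : L} {T : Set L} (hT : Cv b T) {x x' a : L} (hx : x ∈ T) (hx' : x' ∈ T)
    (hne : x ≠ x') (ha : a ∈ T) (hl : a ≤ x ⊔ x') : a ⋖ x ⊔ x' := by
  by_cases h : a = x
  · rw [h]
    exact cov_sup hρ hT hx hx' hne
  · have h1 : x ⋖ x ⊔ a := cov_sup hρ hT hx ha (Ne.symm h)
    have h2 : a ⋖ a ⊔ x := cov_sup hρ hT ha hx h
    have h3 : x ⊔ a = x ⊔ x' := by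
      by_contra h4
      exact (cov_sup hρ hT hx hx' hne).2 h1.lt (lt_of_le_of_ne (sup_le le_sup_left hl) h4)
    rw [← h3, sup_comm]
    exact h2

theorem gen_atom {b : L} {T : Set L} (hT : Cv b T) {a : L} (ha : a ∈ T) : Gen b T a := by
  unfold Gen
  exact le_antisymm (le_sup_of_le_right (le_sSup ⟨ha, le_rfl⟩))
    (sup_le (hT a ha).le (sSup_le fun y hy => hy.2))

theorem gen_sup {b : L} {T : Set L} (hT : Cv b T) {x x' : L} (hx : x ∈ T) (hx' : x' ∈ T) :
    Gen b T (x ⊔ x') := by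
  unfold Gen
  refine le_antisymm (sup_le ?_ ?_) (sup_le ?_ (sSup_le fun y hy => hy.2))
  · exact le_sup_of_le_right (le_sSup ⟨hx, le_sup_left⟩)
  · exact le_sup_of_le_right (le_sSup ⟨hx', le_sup_right⟩)
  · exact (hT x hx).le.trans le_sup_left

theorem s_RICH (h1 : S_GCON) (h2 : S_LIFT) (h3 : S_FR) (h4 : S_GRD) (h5 : S_LINB) : S_RICH := by
  intro L _ ρ hρ
  suffices H : ∀ n : ℕ, ∀ (b : L) (T : Set L), ρ (tp b T) - ρ b < n → Cv b T → T.Infinite →
      ∃ U ⊆ T, #U = #T ∧ Lk b T U from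
    fun b T hT hinf => H _ b T (Nat.lt_succ_self _) hT hinf
  intro n
  induction n with
  | zero => exact fun b T hn => absurd hn (Nat.not_lt_zero _)
  | succ n ih =>
    intro b T hn hT hinf
    have hκ : ℵ₀ ≤ #T := Cardinal.infinite_iff.1 hinf.to_subtype
    by_cases hA : ∃ x ∈ T, ∃ x' ∈ T, x ≠ x' ∧ #(Bel T (x ⊔ x')) = #T
    · obtain ⟨x, hx, x', hx', hne, hc⟩ := hA
      refine ⟨Bel T (x ⊔ x'), fun a ha => ha.1, hc, ?_⟩
      obtain ⟨p, hp, hd⟩ := h3 L ρ hρ b T (Bel T (x ⊔ x')) (x ⊔ x') hT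
        ((hT x hx).le.trans le_sup_left) (gen_sup hT hx hx')
        fun z hz => ⟨bel_cov hρ hT hx hx' hne hz.1 hz.2, (hT z hz.1).le, gen_atom hT hz.1⟩
      exact ⟨p, fun a ha => ⟨(hp a ha).1, fun z hz => ((hp a ha).2 z hz).1⟩, hd⟩
    · have hA' : ∀ x ∈ T, ∀ x' ∈ T, x ≠ x' → #(Bel T (x ⊔ x')) ≠ #T :=
        fun x hx x' hx' hne hc => hA ⟨x, hx, x', hx', hne, hc⟩
      obtain ⟨E, hE⟩ : ∃ E : Set L, E = {x | x ∈ T ∧ #(Con x T) < #T} := ⟨_, rfl⟩
      have hmem : ∀ x, x ∈ E ↔ x ∈ T ∧ #(Con x T) < #T := fun x => by rw [hE]; exact Iff.rfl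
      have hEs : E.Subsingleton := by
        intro x hx x' hx'
        rw [hmem] at hx hx'
        by_contra hne
        have a1 := h5 L ρ hρ b T x x' hT hx.1 hx'.1 hne
        have a2 : #(Con x T) * #(Con x' T) < #T := Cardinal.mul_lt_of_lt hκ hx.2 hx'.2
        have a3 : #(Bel T (x ⊔ x')) < #T :=
          lt_of_le_of_ne (Cardinal.mk_le_mk_of_subset fun a ha => ha.1) (hA' x hx.1 x' hx'.1 hne)
        have a4 : #T ≤ #(Bel T (x ⊔ x')) + #{a // a ∈ T ∧ ¬ a ≤ x ⊔ x'} := by
          have a5 : T ⊆ Bel T (x ⊔ x') ∪ {a | a ∈ T ∧ ¬ a ≤ x ⊔ x'} := by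
            intro a ha
            by_cases h : a ≤ x ⊔ x'
            · exact Or.inl ⟨ha, h⟩
            · exact Or.inr ⟨ha, h⟩
          exact (Cardinal.mk_le_mk_of_subset a5).trans (Cardinal.mk_union_le _ _)
        exact absurd (a4.trans_lt (Cardinal.add_lt_of_lt hκ a3 (a1.trans_lt a2))) (lt_irrefl _)
      have hI : #(T \ E : Set L) = #T := by
        refine le_antisymm (Cardinal.mk_le_mk_of_subset Set.diff_subset) ?_
        by_contra hlt
        rw [not_le] at hlt
        have b1 : #E < #T := (Cardinal.lt_aleph0_iff_set_finite.2 hEs.finite).trans_le hκ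
        have b2 : #T ≤ #(T \ E : Set L) + #E := by
          have b3 : T ⊆ (T \ E) ∪ E := by
            intro a ha
            by_cases h : a ∈ E
            · exact Or.inr h
            · exact Or.inl ⟨ha, h⟩
          exact (Cardinal.mk_le_mk_of_subset b3).trans (Cardinal.mk_union_le _ _)
        exact absurd (b2.trans_lt (Cardinal.add_lt_of_lt hκ hlt b1)) (lt_irrefl _)
      have hcon : ∀ x ∈ T \ E, #(Con x T) = #T := by
        intro x hx
        refine le_antisymm ?_ (not_lt.1 fun h => hx.2 ((hmem x).2 ⟨hx.1, h⟩))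
        have c0 : Con x T ⊆ (fun a => x ⊔ a) '' T := by
          rintro w ⟨a, ha, -, rfl⟩
          exact ⟨a, ha, rfl⟩
        exact (Cardinal.mk_le_mk_of_subset c0).trans Cardinal.mk_image_le
      have hrec : ∀ x ∈ T \ E, ∃ K : Set (List L), #T ≤ #K ∧
          (∀ l ∈ K, ∀ l' ∈ K, l ≠ l' → List.Disjoint l l') ∧
          ∀ l ∈ K, (∃ w ∈ Con x T, Pc (tp x (Con x T)) w l) ∧ ∀ z ∈ l, Gen x (Con x T) z := by
        intro x hx
        obtain ⟨g1, g2, g3⟩ := h1 L ρ hρ b T x hT hx.1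
        have c1 := hcon x hx
        have c2 : (Con x T).Infinite := by
          rw [← Set.infinite_coe_iff, Cardinal.infinite_iff, c1]
          exact hκ
        have c3 : ρ (tp x (Con x T)) - ρ x < n := by
          rw [g2]
          have d1 := hρ.mono b x (hT x hx.1).lt
          have d2 : x ≤ tp b T := le_sup_of_le_right (le_sSup hx.1)
          have d3 : ρ x ≤ ρ (tp b T) := by
            rcases d2.eq_or_lt with e | e
            · exact le_of_eq (congrArg ρ e)
            · exact (hρ.mono _ _ e).le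
          omega
        obtain ⟨U, hU, hUc, p, hp, hd⟩ := ih x (Con x T) c3 g1 c2
        refine ⟨p '' U, ?_, ?_, ?_⟩
        · have hinj : Set.InjOn p U := by
            intro a ha a' ha' h
            have e1 := (hp a ha).1.1
            have e2 := (hp a' ha').1.1
            rw [h, e2] at e1
            exact (Option.some.inj e1).symm
          rw [Cardinal.mk_image_eq_of_injOn _ _ hinj, hUc, c1]
        · rintro _ ⟨a, ha, rfl⟩ _ ⟨a', ha', rfl⟩ hne
          exact hd a ha a' ha' fun h => hne (by rw [h])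
        · rintro _ ⟨a, ha, rfl⟩
          exact ⟨⟨a, hU ha, (hp a ha).1⟩, (hp a ha).2⟩
      choose! K hK1 hK2 hK3 using hrec
      obtain ⟨p, hp, hd⟩ := h4 L (T \ E) ∅ #T K hκ hI.le
        (by rw [Cardinal.mk_emptyCollection]; exact Cardinal.aleph0_pos.trans_le hκ)
        fun i hi => ⟨hK1 i hi, hK2 i hi⟩
      have key : ∀ u ∈ T \ E, ∀ v ∈ T, u ≠ v → v ∉ p u := by
        intro u hu v hv huv hm
        have g := (hK3 u hu (p u) (hp u hu).1).2 v hm
        unfold Gen at g
        have g' : u ≤ v := by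
          rw [g]
          exact le_sup_left
        exact huv (eq_of_le (hT u hu.1) (hT v hv) g')
      refine ⟨T \ E, Set.diff_subset, hI, fun x => x :: p x, fun x hx => ?_, fun x hx y hy hne => ?_⟩
      · obtain ⟨⟨w, hw, hP⟩, hG⟩ := hK3 x hx (p x) (hp x hx).1
        exact h2 L ρ hρ b T x w (p x) hT hx.1 hw hP hG
      · intro z hz hz'
        rcases List.mem_cons.1 hz with e | e
        · rcases List.mem_cons.1 hz' with e' | e'
          · exact hne (e.symm.trans e')
          · rw [e] at e'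
            exact key y hy x hx.1 (Ne.symm hne) e'
        · rcases List.mem_cons.1 hz' with e' | e'
          · rw [e'] at e
            exact key x hx y hy.1 hne e
          · exact hd x hx y hy hne e e'

end Pool.Agent.L7h52.GL
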